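import Pool.Agent.H46.BorelPow.RO
import Pool.Agent.DN.Core
import Pool.Agent.H5.DL.IdxEx

/-!
# Project DL (MP_d362fb_lc), row P-RO: from the poset to the Boolean valued core

`Q` is a preorder, `p ≤ q` means that `q` is the stronger condition.
-/

set_option autoImplicit false

namespace DL

open DN CI Pool.Agent.H46.BorelPow

section

/-- `x` and `y` are equal below `ν` and have the different labels `e` and `e'` at `ν` -/
def Spl {K L : Type} [LinearOrder K] [LinearOrder L] (x y : H5.DL.Nd K L) (ν : L)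
    (e e' : K × L) : Prop :=
  (∀ μ < ν, x.f μ = y.f μ) ∧ x.f ν = some e ∧ y.f ν = some e' ∧ e ≠ e'

theorem Spl.symm {K L : Type} [LinearOrder K] [LinearOrder L] {x y : H5.DL.Nd K L} {ν : L}
    {e e' : K × L} (h : Spl x y ν e e') : Spl y x ν e' e :=
  ⟨fun μ hμ => (h.1 μ hμ).symm, h.2.2.1, h.2.1, fun h' => h.2.2.2 h'.symm⟩

/-- what the forcing has to supply -/
structure PCore (K L : Type) [LinearOrder K] [LinearOrder L] (Q : Type) [Preorder Q] where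
  ne : Nonempty Q
  /-- the height of a condition -/
  n : Q → ℕ
  n_mono : ∀ p q, p ≤ q → n p ≤ n q
  n_unb : ∀ p N, ∃ q, p ≤ q ∧ N ≤ n q
  /-- `u p x m v`: the condition `p` decides `u_x(m) = v` -/
  u : Q → H5.DL.Nd K L → ℕ → ℕ → Prop
  u_mono : ∀ p q x m v, p ≤ q → u p x m v → u q x m v
  u_fun : ∀ p x m v v', u p x m v → u p x m v' → v = v'
  agr : ∀ x y ν e e', Spl x y ν e e' → ∀ p, ∃ q, p ≤ q ∧ ∃ m0, ∀ r, q ≤ r → ∀ m, m0 ≤ m →
    ∀ v v', u r x m v → u r y m v' → v = v'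
  inf : ∀ x y ν e e', Spl x y ν e e' → ∀ p N, ∃ q, p ≤ q ∧ ∃ m v, N ≤ m ∧ u q x m v ∧
    ∀ r, q ≤ r → ∀ w, ¬ u r y m w
  dom : ∀ W : ℕ → Set Q, (∀ m p q, p ∈ W m → p ≤ q → q ∈ W m) → (∀ m p, ∃ q ∈ W m, p ≤ q) →
    ∃ d : K × L, ∀ x y ν e e', Spl x y ν e e' → d ≤ e → ∀ p, ∃ q, p ≤ q ∧ ∃ m0, ∀ r, q ≤ r →
      ∀ m, m0 ≤ m → ∀ v, u r x m v → (∀ w, ¬ u r y m w) → ∃ c ∈ W m, c ≤ r ∧ n c ≤ v

variable {K L : Type} [LinearOrder K] [LinearOrder L] {Q : Type} [Preorder Q]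

/-- the name of the partial function `u_x` -/
def PCore.nm (P : PCore K L Q) (x : H5.DL.Nd K L) : PFu (RO Q) where
  f m v := ⟨reg {p | P.u p x m v}, isReg_reg _⟩
  disj m v v' hv := by
    rw [RO.eq_bot_iff']
    rintro p ⟨h1, h2⟩
    obtain ⟨q, hq, hq'⟩ := h1 p le_rfl
    obtain ⟨r, hr, hr'⟩ := h2 q hq
    exact hv (P.u_fun r x m v v' (P.u_mono q r x m v hr hq') hr')

theorem PCore.mem_nm_of (P : PCore K L Q) {x : H5.DL.Nd K L} {m v : ℕ} {p : Q}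
    (h : P.u p x m v) : p ∈ ((P.nm x).f m v).S :=
  fun q hq => ⟨q, le_rfl, P.u_mono p q x m v hq h⟩

theorem PCore.mem_dom_of (P : PCore K L Q) {x : H5.DL.Nd K L} {m v : ℕ} {p : Q}
    (h : P.u p x m v) : p ∈ ((P.nm x).dom m).S := by
  unfold PFu.dom
  rw [RO.mem_iSup]
  exact fun q hq => ⟨q, le_rfl, v, P.mem_nm_of (P.u_mono p q x m v hq h)⟩

/-- a condition in the truth value of `m ∈ dom u_x` has an extension which decides `u_x(m)` -/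
theorem PCore.ex_of_mem_dom (P : PCore K L Q) {x : H5.DL.Nd K L} {m : ℕ} {p : Q}
    (h : p ∈ ((P.nm x).dom m).S) : ∃ q, p ≤ q ∧ ∃ v, P.u q x m v := by
  unfold PFu.dom at h
  rw [RO.mem_iSup] at h
  obtain ⟨q, hq, v, hv⟩ := h p le_rfl
  obtain ⟨r, hr, hr'⟩ := hv q le_rfl
  exact ⟨r, hq.trans hr, v, hr'⟩

theorem PCore.mem_dom_compl (P : PCore K L Q) {x : H5.DL.Nd K L} {m : ℕ} {p : Q} :
    p ∈ (((P.nm x).dom m)ᶜ).S ↔ ∀ q, p ≤ q → ∀ v, ¬ P.u q x m v := by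
  rw [RO.mem_compl]
  constructor
  · intro h q hq v hv
    exact h q hq (P.mem_dom_of hv)
  · intro h q hq hq'
    obtain ⟨r, hr, v, hv⟩ := P.ex_of_mem_dom hq'
    exact h r (hq.trans hr) v hv

theorem iSup_top {ι : Sort*} {f : ι → RO Q} (h : ∀ p, ∃ q, p ≤ q ∧ ∃ i, q ∈ (f i).S) :
    ⨆ i, f i = ⊤ := by
  rw [RO.eq_top_iff']
  intro p
  rw [RO.mem_iSup]
  intro q _
  exact h q

theorem PCore.agr_top (P : PCore K L Q) {x y : H5.DL.Nd K L} {ν : L} {e e' : K × L}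
    (h : Spl x y ν e e') : ⨆ m, DN.agr (P.nm x) (P.nm y) m = ⊤ := by
  refine iSup_top fun p => ?_
  obtain ⟨q, hq, m0, hm0⟩ := P.agr x y ν e e' h p
  refine ⟨q, hq, m0, ?_⟩
  unfold DN.agr
  simp only [RO.mem_iInf]
  intro m hm k l hkl
  rw [RO.mem_compl]
  rintro r hr ⟨hx, hy⟩
  obtain ⟨a, ha, ha'⟩ := hx r le_rfl
  obtain ⟨b, hb, hb'⟩ := hy a ha
  exact hkl (hm0 b (hr.trans (ha.trans hb)) m hm k l (P.u_mono _ _ _ _ _ hb ha') hb')

theorem PCore.dinf_top (P : PCore K L Q) {x y : H5.DL.Nd K L} {ν : L} {e e' : K × L}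
    (h : Spl x y ν e e') : dinf (P.nm x) (P.nm y) = ⊤ := by
  unfold dinf
  rw [RO.eq_top_iff']
  intro p
  rw [RO.mem_iInf]
  intro N
  rw [RO.mem_iSup]
  intro q _
  obtain ⟨q2, hq2, m, v, hm, hv, hs⟩ := P.inf x y ν e e' h q N
  refine ⟨q2, hq2, m, ?_⟩
  rw [RO.mem_iSup]
  intro r hr
  refine ⟨r, le_rfl, hm, ?_⟩
  rw [RO.mem_inf]
  refine ⟨P.mem_dom_of (P.u_mono _ _ _ _ _ hr hv), ?_⟩
  rw [P.mem_dom_compl]
  exact fun a ha w => hs a (hr.trans ha) w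

/-- for every name of a real there is a label which dominates it -/
theorem PCore.ex_dom (P : PCore K L Q) (h : Fu (RO Q)) : ∃ d : K × L, ∀ x y ν e e',
    Spl x y ν e e' → d ≤ e → ⨆ m, abv (P.nm x) (P.nm y) h m = ⊤ := by
  obtain ⟨d, hd⟩ := P.dom (fun m => {c | ∃ j, j < P.n c ∧ c ∈ (h.f m j).S}) (by
    rintro m p q ⟨j, hj, hj'⟩ hpq
    exact ⟨j, hj.trans_le (P.n_mono p q hpq), (h.f m j).isReg.up hj' hpq⟩) (by
    intro m p
    have h1 := h.top m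
    rw [RO.eq_top_iff'] at h1
    have h2 := h1 p
    rw [RO.mem_iSup] at h2
    obtain ⟨q, hq, j, hj⟩ := h2 p le_rfl
    obtain ⟨r, hr, hr'⟩ := P.n_unb q (j + 1)
    exact ⟨r, ⟨j, hr', (h.f m j).isReg.up hj hr⟩, hq.trans hr⟩)
  refine ⟨d, fun x y ν e e' hsp hge => iSup_top fun p => ?_⟩
  obtain ⟨q, hq, m0, hm0⟩ := hd x y ν e e' hsp hge p
  refine ⟨q, hq, m0, ?_⟩
  unfold abv
  simp only [RO.mem_iInf]
  intro m hm k l hkl
  rw [RO.mem_compl]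
  rintro r hr ⟨⟨hx, hy⟩, hl⟩
  obtain ⟨a, ha, ha'⟩ := hx r le_rfl
  rw [P.mem_dom_compl] at hy
  obtain ⟨c, ⟨j, hj, hj'⟩, hca, hnc⟩ := hm0 a (hr.trans ha) m hm k ha' fun w => hy a ha w
  have h1 : a ∈ (h.f m j ⊓ h.f m l).S := ⟨(h.f m j).isReg.up hj' hca, (h.f m l).isReg.up hl ha⟩
  rw [h.disj m j l (by omega)] at h1
  exact RO.not_mem_bot _ h1

theorem PCore.nontriv (P : PCore K L Q) : (⊥ : RO Q) ≠ ⊤ := by
  intro h0
  obtain ⟨p⟩ := P.ne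
  have h1 : p ∈ (⊤ : RO Q).S := trivial
  rw [← h0] at h1
  exact RO.not_mem_bot _ h1

/-- the bridge: the forcing and the combinatorial core give the Boolean valued core -/
theorem PCore.delta' (P : PCore K L Q) (hA : ∀ d : H5.DL.Nd K L → K × L, H5.DL.Split d) :
    DeltaCore (RO Q) := by
  refine ⟨P.nontriv, H5.DL.Nd K L, P.nm, fun F => ?_⟩
  choose d hd using fun x => P.ex_dom (F x)
  obtain ⟨x, y, ν, e, e', h1, h2, h3, h4, h5, h6⟩ := hA d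
  have hs : Spl x y ν e e' := ⟨fun μ hμ => (h1 μ hμ).1, h2, h3, h4⟩
  exact ⟨x, y, P.agr_top hs, hd y x y ν e e' hs h5, hd x y x ν e' e hs.symm h6,
    P.dinf_top hs, P.dinf_top hs.symm⟩

end

/-- the bridge -/
theorem PCore.delta {Q : Type} [Preorder Q] (P : PCore H5.DL.W1 H5.DL.W2 Q) :
    DeltaCore (RO Q) := P.delta' H5.DL.core_ex

end DL
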